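import Pool.Agent.Ward.Subarc
import Pool.Agent.Ward.FixedPointFree

/-!
# Ward's conjecture, for continuum-valued maps

For arcwise connected continua the fixed point property for continuous continuum-valued maps (and
hence that for continuous closed set-valued maps) implies hereditary unicoherence.
-/

set_option autoImplicit false

open Topology TopologicalSpace Set unitInterval

namespace Pool.Agent.Results.MP_65cb57_gt.ContinuumValuedMaps

universe u

section Union

attribute [local instance] TopologicalSpace.vietoris

variable {X : Type u} [TopologicalSpace X]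

/-- The union of a path of nonempty compact sets. -/
def unionPath (g : C(I, NonemptyCompacts X)) : NonemptyCompacts X :=
  ⟨⟨⋃ t : I, (g t : Set X), by
    have h := NonemptyCompacts.isCompact_biUnion_coe_of_isCompact (isCompact_range g.continuous)
    rwa [biUnion_range] at h⟩, by
    obtain ⟨x, hx⟩ := (g 0).nonempty
    exact ⟨x, mem_iUnion.2 ⟨0, hx⟩⟩⟩

theorem coe_unionPath (g : C(I, NonemptyCompacts X)) :
    (unionPath g : Set X) = ⋃ t : I, (g t : Set X) := rfl

theorem mem_unionPath (g : C(I, NonemptyCompacts X)) (x : X) :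
    x ∈ unionPath g ↔ ∃ t : I, x ∈ g t := by
  change x ∈ (unionPath g : Set X) ↔ _
  rw [coe_unionPath, mem_iUnion]
  rfl

theorem continuous_unionPath : Continuous (unionPath : C(I, NonemptyCompacts X) → _) := by
  rw [NonemptyCompacts.isEmbedding_coe.continuous_iff, vietoris.continuous_iff]
  constructor
  · intro O hO
    have h : ((fun A : NonemptyCompacts X => (A : Set X)) ∘ unionPath) ⁻¹' O.powerset =
        {g : C(I, NonemptyCompacts X) | MapsTo g univ {A | (A : Set X) ⊆ O}} := by
      ext g
      simp [coe_unionPath, MapsTo, iUnion_subset_iff]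
    have h' := ContinuousMap.isOpen_setOfPred_mapsTo (X := I) (isCompact_univ)
      (NonemptyCompacts.isOpen_subsets_of_isOpen hO)
    exact h ▸ h'
  · intro F hF
    have h : ((fun A : NonemptyCompacts X => (A : Set X)) ∘ unionPath) ⁻¹' F.powerset =
        ⋂ t : I, {g : C(I, NonemptyCompacts X) | (g t : Set X) ⊆ F} := by
      ext g
      simp [coe_unionPath, iUnion_subset_iff]
    have h' : IsClosed (⋂ t : I, {g : C(I, NonemptyCompacts X) | (g t : Set X) ⊆ F}) :=
      isClosed_iInter fun t => (NonemptyCompacts.isClosed_subsets_of_isClosed hF).preimage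
        (continuous_eval_const t)
    exact h ▸ h'

theorem isPreconnected_unionPath (g : C(I, NonemptyCompacts X)) (t₀ : I)
    (h : IsPreconnected (g t₀ : Set X)) : IsPreconnected (unionPath g : Set X) := by
  have h1 := vietoris.isPreconnected_biUnion (s := (univ : Set I))
    (f := fun t => (g t : Set X)) isPreconnected_univ
    (NonemptyCompacts.continuous_coe.comp g.continuous).continuousOn ⟨t₀, mem_univ _, h⟩
  rwa [biUnion_univ] at h1

end Union

/-- Order arcs whose values are continua. -/
theorem exists_orderArc' {X : Type u} [MetricSpace X] [CompactSpace X] (b : X)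
    (K : NonemptyCompacts X) (hb : b ∈ K) (hK : IsPreconnected (K : Set X)) :
    ∃ G : C(I, NonemptyCompacts X), G 0 = {b} ∧ G 1 = K ∧ (∀ t, G t ≤ K) ∧
      ∀ t, IsPreconnected (G t : Set X) := by
  obtain ⟨G, hG0, hG1, hG⟩ := Pool.Agent.Ward.exists_orderArc b K hb hK
  let g : C(I × I, NonemptyCompacts X) := G.comp ⟨fun p => p.1 * p.2, by fun_prop⟩
  have hg : ∀ t θ, g (t, θ) = G (t * θ) := fun t θ => rfl
  refine ⟨⟨fun t => unionPath (g.curry t), continuous_unionPath.comp g.curry.continuous⟩,
    ?_, ?_, ?_, ?_⟩
  · apply SetLike.ext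
    intro x
    change x ∈ unionPath (g.curry 0) ↔ _
    rw [mem_unionPath]
    constructor
    · rintro ⟨θ, hx⟩
      change x ∈ g (0, θ) at hx
      rwa [hg, zero_mul, hG0] at hx
    · intro hx
      refine ⟨0, ?_⟩
      change x ∈ g (0, 0)
      rwa [hg, zero_mul, hG0]
  · apply SetLike.ext
    intro x
    change x ∈ unionPath (g.curry 1) ↔ _
    rw [mem_unionPath]
    constructor
    · rintro ⟨θ, hx⟩
      exact hG _ hx
    · intro hx
      refine ⟨1, ?_⟩
      change x ∈ g (1, 1)
      rwa [hg, one_mul, hG1]
  · intro t x hx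
    have hx' : x ∈ unionPath (g.curry t) := hx
    rw [mem_unionPath] at hx'
    obtain ⟨θ, hx'⟩ := hx'
    exact hG _ hx'
  · intro t
    refine isPreconnected_unionPath (g.curry t) 0 ?_
    change IsPreconnected (g (t, 0) : Set X)
    rw [hg, mul_zero, hG0]
    simpa using isPreconnected_singleton

section Homotopy

variable {X : Type u} [MetricSpace X]

/-- The subcontinua of `Y`. -/
abbrev Cont (Y : NonemptyCompacts X) : Type u :=
  {A : NonemptyCompacts X // A ≤ Y ∧ IsPreconnected (A : Set X)}

/-- The subcontinua of `Y` that contain `p`. -/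
abbrev ContAt (Y : NonemptyCompacts X) (p : X) : Type u :=
  {A : NonemptyCompacts X // p ∈ A ∧ A ≤ Y ∧ IsPreconnected (A : Set X)}

theorem contAt_sup (Y : NonemptyCompacts X) (p : X) ⦃A B : NonemptyCompacts X⦄
    (hA : p ∈ A ∧ A ≤ Y ∧ IsPreconnected (A : Set X))
    (hB : p ∈ B ∧ B ≤ Y ∧ IsPreconnected (B : Set X)) :
    p ∈ A ⊔ B ∧ A ⊔ B ≤ Y ∧ IsPreconnected ((A ⊔ B : NonemptyCompacts X) : Set X) := by
  refine ⟨Or.inl hA.1, sup_le hA.2.1 hB.2.1, ?_⟩
  rw [NonemptyCompacts.coe_sup]
  exact hA.2.2.union p hA.1 hB.1 hB.2.2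

instance instSemilatticeSupContAt (Y : NonemptyCompacts X) (p : X) :
    SemilatticeSup (ContAt Y p) :=
  Subtype.semilatticeSup (contAt_sup Y p)

instance instContinuousSupContAt (Y : NonemptyCompacts X) (p : X) : ContinuousSup (ContAt Y p) where
  continuous_sup :=
    ((continuous_subtype_val.comp continuous_fst).sup
      (continuous_subtype_val.comp continuous_snd)).subtype_mk _

/-- Every loop of subcontinua of `Y`, based at a point, is null-homotopic. -/
theorem loop_nullhomotopic' (Y : NonemptyCompacts X) (p : X) (z : Cont Y)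
    (hz : z.1 = {p}) (c : Path z z) : c.Homotopic (Path.refl z) := by
  have hpY : p ∈ Y := by
    have h : p ∈ z.1 := by
      rw [hz]
      exact Set.mem_singleton p
    exact z.2.1 h
  -- the stretched parameter
  let r : (I × I) × I → I := fun x =>
    projIcc (0 : ℝ) 1 zero_le_one
      ((x.1.2 : ℝ) + (2 * (x.2 : ℝ) - 1) * (x.1.1 : ℝ) * min (x.1.2 : ℝ) (1 - (x.1.2 : ℝ)))
  have hr : Continuous r := by
    refine continuous_projIcc.comp ?_
    fun_prop
  let g : C((I × I) × I, NonemptyCompacts X) :=
    ⟨fun x => (c (r x)).1, continuous_subtype_val.comp (c.continuous.comp hr)⟩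
  have hg : ∀ s t θ, g.curry (s, t) θ = (c (r ((s, t), θ))).1 := fun s t θ => rfl
  let E : I × I → Cont Y := fun x =>
    ⟨unionPath (g.curry x), by
      intro y hy
      have hy' : y ∈ unionPath (g.curry x) := hy
      rw [mem_unionPath] at hy'
      obtain ⟨θ, hy'⟩ := hy'
      exact (c (r (x, θ))).2.1 hy',
     isPreconnected_unionPath _ 0 (c (r (x, 0))).2.2⟩
  have hE : Continuous E := (continuous_unionPath.comp g.curry.continuous).subtype_mk _
  -- the unions of constant families
  have hconst : ∀ s t : I, (∀ θ, r ((s, t), θ) = t) → E (s, t) = c t := by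
    intro s t h
    apply Subtype.ext
    apply SetLike.ext
    intro x
    change x ∈ unionPath (g.curry (s, t)) ↔ _
    rw [mem_unionPath]
    constructor
    · rintro ⟨θ, hx⟩
      rw [hg, h] at hx
      exact hx
    · intro hx
      refine ⟨0, ?_⟩
      rw [hg, h]
      exact hx
  have hr0 : ∀ t θ : I, r ((0, t), θ) = t := by
    intro t θ
    have h : ((t : ℝ) + (2 * (θ : ℝ) - 1) * ((0 : I) : ℝ) * min (t : ℝ) (1 - (t : ℝ))) = t := by
      simp
    change projIcc (0 : ℝ) 1 zero_le_one _ = t
    rw [h]
    exact projIcc_val _ t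
  have hrL : ∀ s θ : I, r ((s, 0), θ) = 0 := by
    intro s θ
    have h : ((0 : I) : ℝ) + (2 * (θ : ℝ) - 1) * (s : ℝ) * min ((0 : I) : ℝ) (1 - ((0 : I) : ℝ)) =
        ((0 : I) : ℝ) := by
      simp
    change projIcc (0 : ℝ) 1 zero_le_one _ = 0
    rw [h]
    exact projIcc_val _ 0
  have hrR : ∀ s θ : I, r ((s, 1), θ) = 1 := by
    intro s θ
    have h : ((1 : I) : ℝ) + (2 * (θ : ℝ) - 1) * (s : ℝ) * min ((1 : I) : ℝ) (1 - ((1 : I) : ℝ)) =
        ((1 : I) : ℝ) := by
      simp
    change projIcc (0 : ℝ) 1 zero_le_one _ = 1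
    rw [h]
    exact projIcc_val _ 1
  -- at the end of the stretching all values contain `p`
  have hmem : ∀ t : I, p ∈ (E (1, t)).1 := by
    intro t
    change p ∈ unionPath (g.curry (1, t))
    rw [mem_unionPath]
    rcases le_total (t : ℝ) (1 - (t : ℝ)) with h | h
    · refine ⟨0, ?_⟩
      have h1 : r ((1, t), 0) = 0 := by
        have h2 : ((t : ℝ) + (2 * ((0 : I) : ℝ) - 1) * ((1 : I) : ℝ) *
            min (t : ℝ) (1 - (t : ℝ))) = ((0 : I) : ℝ) := by
          rw [min_eq_left h]
          simp
        change projIcc (0 : ℝ) 1 zero_le_one _ = 0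
        rw [h2]
        exact projIcc_val _ 0
      rw [hg, h1, c.source, hz]
      exact Set.mem_singleton p
    · refine ⟨1, ?_⟩
      have h1 : r ((1, t), 1) = 1 := by
        have h2 : ((t : ℝ) + (2 * ((1 : I) : ℝ) - 1) * ((1 : I) : ℝ) *
            min (t : ℝ) (1 - (t : ℝ))) = ((1 : I) : ℝ) := by
          rw [min_eq_right h]
          push_cast
          ring
        change projIcc (0 : ℝ) 1 zero_le_one _ = 1
        rw [h2]
        exact projIcc_val _ 1
      rw [hg, h1, c.target, hz]
      exact Set.mem_singleton p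
  let zp : ContAt Y p := ⟨z.1, by rw [hz]; exact Set.mem_singleton p, z.2⟩
  let A : Path zp zp :=
    { toFun := fun t => ⟨(E (1, t)).1, hmem t, (E (1, t)).2⟩
      continuous_toFun :=
        (continuous_subtype_val.comp (hE.comp (by fun_prop : Continuous fun t : I =>
          ((1 : I), t)))).subtype_mk _
      source' := by
        apply Subtype.ext
        change (E (1, 0)).1 = z.1
        rw [hconst 1 0 (hrL 1), c.source]
      target' := by
        apply Subtype.ext
        change (E (1, 1)).1 = z.1
        rw [hconst 1 1 (hrR 1), c.target] }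
  let ι : C(ContAt Y p, Cont Y) := ⟨fun B => ⟨B.1, B.2.2⟩, continuous_subtype_val.subtype_mk _⟩
  have h1 : c.Homotopic (A.map ι.continuous) := by
    refine ⟨⟨⟨⟨E, hE⟩, ?_, ?_⟩, ?_⟩⟩
    · intro t
      exact hconst 0 t (hr0 t)
    · intro t
      rfl
    · intro s t ht
      rcases ht with ht | ht
      · subst ht
        change E (s, 0) = c 0
        exact hconst s 0 (hrL s)
      · rw [Set.mem_singleton_iff] at ht
        subst ht
        change E (s, 1) = c 1
        exact hconst s 1 (hrR s)
  have h2 : (A.map ι.continuous).Homotopic ((Path.refl zp).map ι.continuous) :=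
    (Pool.Agent.Ward.loop_nullhomotopic A).map ι
  have h3 : (Path.refl zp).map ι.continuous = Path.refl z := by
    ext t
    rfl
  rw [h3] at h2
  exact h1.trans h2

end Homotopy

/-- If a compact metric space contains a continuum `K` and an arc that meets `K` exactly in its
endpoints, then it has a continuous continuum-valued map into itself without fixed points. -/
theorem exists_fixedPointFree' {X : Type u} [MetricSpace X] [CompactSpace X] (K : Set X)
    (hKc : IsClosed K) (hKp : IsPreconnected K) {a b : X} (α : Path a b)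
    (hα : Function.Injective α) (ha : a ∈ K) (hb : b ∈ K)
    (hK : ∀ t : I, α t ∈ K → t = 0 ∨ t = 1) :
    ∃ F : X → NonemptyCompacts X, Continuous F ∧ (∀ x, IsPreconnected (F x : Set X)) ∧
      ∀ x, x ∉ F x := by
  classical
  let K' : NonemptyCompacts X := ⟨⟨K, hKc.isCompact⟩, ⟨a, ha⟩⟩
  let R' : NonemptyCompacts X := ⟨⟨range α, isCompact_range α.continuous⟩, ⟨a, 0, α.source⟩⟩
  let Y : NonemptyCompacts X := K' ⊔ R'
  have hYcoe : ∀ x : X, x ∈ Y ↔ x ∈ K ∨ x ∈ range α := fun x => Iff.rfl
  have hK'Y : K' ≤ Y := le_sup_left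
  have hsing : ∀ t : I, ({α t} : NonemptyCompacts X) ≤ Y := by
    intro t x hx
    have hx' : x ∈ (({α t} : NonemptyCompacts X) : Set X) := hx
    rw [NonemptyCompacts.coe_singleton, Set.mem_singleton_iff] at hx'
    subst hx'
    exact Or.inr ⟨t, rfl⟩
  have hsingp : ∀ t : I, IsPreconnected (({α t} : NonemptyCompacts X) : Set X) := by
    intro t
    rw [NonemptyCompacts.coe_singleton]
    exact isPreconnected_singleton
  let sg : I → Cont Y := fun t => ⟨{α t}, hsing t, hsingp t⟩
  have hS : Continuous sg :=
    (NonemptyCompacts.continuous_singleton.comp α.continuous).subtype_mk _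
  have hmemS : ∀ (t : I) (x : X), x ∈ (sg t).1 → x = α t := by
    intro t x hx
    have hx' : x ∈ (({α t} : NonemptyCompacts X) : Set X) := hx
    rwa [NonemptyCompacts.coe_singleton, Set.mem_singleton_iff] at hx'
  let half : I := ⟨1 / 2, by norm_num, by norm_num⟩
  let KY : Cont Y := ⟨K', hK'Y, hKp⟩
  -- the four paths
  let r1 : I → I := fun u => ⟨(1 + (u : ℝ)) / 2, by
    constructor
    · have := u.2.1; linarith
    · have := u.2.2; linarith⟩
  have hr1 : Continuous r1 := by
    refine Continuous.subtype_mk ?_ _
    fun_prop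
  let r4 : I → I := fun u => ⟨(u : ℝ) / 2, by
    constructor
    · have := u.2.1; linarith
    · have := u.2.2; linarith⟩
  have hr4 : Continuous r4 := by
    refine Continuous.subtype_mk ?_ _
    fun_prop
  let p1 : Path (sg half) (sg 1) :=
    { toFun := fun u => sg (r1 u)
      continuous_toFun := hS.comp hr1
      source' := by
        have h : r1 0 = half := by
          ext
          simp [r1, half]
        rw [h]
      target' := by
        have h : r1 1 = 1 := by
          ext
          simp [r1]
        rw [h] }
  let p4 : Path (sg 0) (sg half) :=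
    { toFun := fun u => sg (r4 u)
      continuous_toFun := hS.comp hr4
      source' := by
        have h : r4 0 = 0 := by
          ext
          simp [r4]
        rw [h]
      target' := by
        have h : r4 1 = half := by
          ext
          simp [r4, half]
        rw [h] }
  obtain ⟨Gb, hGb0, hGb1, hGb, hGbp⟩ := exists_orderArc' b K' hb hKp
  obtain ⟨Ga, hGa0, hGa1, hGa, hGap⟩ := exists_orderArc' a K' ha hKp
  let p2 : Path (sg 1) KY :=
    { toFun := fun u => ⟨Gb u, (hGb u).trans hK'Y, hGbp u⟩
      continuous_toFun := Gb.continuous.subtype_mk _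
      source' := by
        apply Subtype.ext
        change Gb 0 = {α 1}
        rw [hGb0, α.target]
      target' := by
        apply Subtype.ext
        exact hGb1 }
  let p3' : Path (sg 0) KY :=
    { toFun := fun u => ⟨Ga u, (hGa u).trans hK'Y, hGap u⟩
      continuous_toFun := Ga.continuous.subtype_mk _
      source' := by
        apply Subtype.ext
        change Ga 0 = {α 0}
        rw [hGa0, α.source]
      target' := by
        apply Subtype.ext
        exact hGa1 }
  let loop : Path (sg half) (sg half) := (p1.trans p2).trans (p3'.symm.trans p4)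
  have hp2 : ∀ u, ∀ x ∈ (p2 u).1, x ∈ K := fun u x hx => hGb u hx
  have hp3 : ∀ u, ∀ x ∈ (p3'.symm u).1, x ∈ K := fun u x hx => hGa (unitInterval.symm u) hx
  have hloop : ∀ t : I, α t ∉ (loop t).1 := by
    intro t ht
    simp only [loop, Path.trans_apply] at ht
    split_ifs at ht with h1 h2 h3
    · -- first quarter
      have h4 := hα (hmemS _ _ ht)
      have h5 := congrArg Subtype.val h4
      simp only [r1] at h5
      have := t.2.1
      linarith
    · have h4 := hK t (hp2 _ _ ht)
      rcases h4 with h4 | h4
      · apply h2; rw [h4]; norm_num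
      · rw [h4] at h1; norm_num at h1
    · have h4 := hK t (hp3 _ _ ht)
      rcases h4 with h4 | h4
      · apply h1; rw [h4]; norm_num
      · rw [h4] at h3; norm_num at h3
    · have h4 := hα (hmemS _ _ ht)
      have h5 := congrArg Subtype.val h4
      simp only [r4] at h5
      have := t.2.2
      linarith
  obtain ⟨E⟩ := loop_nullhomotopic' Y (α half) (sg half) rfl loop
  have hEc : Continuous E := E.continuous
  have hE0 : ∀ t : I, E (0, t) = loop t := fun t => E.apply_zero t
  have hE1 : ∀ t : I, E (1, t) = sg half := fun t => E.apply_one t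
  have hEs : ∀ s : I, E (s, 0) = sg half := fun s => by simp
  have hEt : ∀ s : I, E (s, 1) = sg half := fun s => by simp
  have hmid : α half ∉ K := by
    intro h
    rcases hK half h with h | h
    · have := congrArg Subtype.val h
      simp only [half] at this
      norm_num at this
    · have := congrArg Subtype.val h
      simp only [half] at this
      norm_num at this
  -- first coordinate
  obtain ⟨f, hf⟩ := ContinuousMap.exists_extension' (X := X) (e := α)
    (α.continuous.isClosedEmbedding hα) (ContinuousMap.id I)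
  have hf' : ∀ t, f (α t) = t := fun t => congrFun hf t
  -- bad parameters
  let N : Set I := Prod.snd '' {p : I × I | (((E p).1 : Set X) ∩ K).Nonempty}
  have hNc : IsClosed N := by
    have h1 : IsClosed {p : I × I | (((E p).1 : Set X) ∩ K).Nonempty} :=
      (NonemptyCompacts.isClosed_inter_nonempty_of_isClosed hKc).preimage
        (continuous_subtype_val.comp hEc)
    exact (h1.isCompact.image continuous_snd).isClosed
  have hdisj : Disjoint (range α) (K ∩ f ⁻¹' N) := by
    rw [Set.disjoint_left]
    rintro _ ⟨t, rfl⟩ ⟨h1, h2⟩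
    have h3 : t ∈ N := by
      have : f (α t) ∈ N := h2
      rwa [hf'] at this
    obtain ⟨⟨s, t'⟩, ⟨x, hx, hxK⟩, h4⟩ := h3
    simp only at h4
    subst h4
    rcases hK _ h1 with h | h
    · subst h
      rw [hEs] at hx
      have := hmemS _ _ hx
      rw [this] at hxK
      exact hmid hxK
    · subst h
      rw [hEt] at hx
      have := hmemS _ _ hx
      rw [this] at hxK
      exact hmid hxK
  obtain ⟨h, hh0, hh1, hhI⟩ := exists_continuous_zero_one_of_isClosed
    (isCompact_range α.continuous).isClosed (hKc.inter (hNc.preimage f.continuous)) hdisj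
  let h' : X → I := fun x => ⟨h x, hhI x⟩
  have hh'c : Continuous h' := h.continuous.subtype_mk _
  refine ⟨fun x => (E (h' x, f x)).1, ?_, fun x => (E (h' x, f x)).2.2, ?_⟩
  · exact continuous_subtype_val.comp (hEc.comp (hh'c.prodMk f.continuous))
  · intro x hx
    change x ∈ (E (h' x, f x)).1 at hx
    have hxY : x ∈ Y := (E (h' x, f x)).2.1 hx
    rcases (hYcoe x).1 hxY with hxK | ⟨t, rfl⟩
    · by_cases hN : f x ∈ N
      · have h1 : h' x = 1 := Subtype.ext (hh1 ⟨hxK, hN⟩)
        rw [h1, hE1] at hx
        have := hmemS _ _ hx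
        rw [this] at hxK
        exact hmid hxK
      · exact hN ⟨(h' x, f x), ⟨x, hx, hxK⟩, rfl⟩
    · have h1 : h' (α t) = 0 := Subtype.ext (hh0 ⟨t, rfl⟩)
      rw [h1, hf', hE0] at hx
      exact hloop t hx

/-- Ward's conjecture, in a stronger form. Let `X` be a compact metric space in which any two
different points are the endpoints of an arc, and suppose that every set-valued map `F` of `X` into
itself that is upper and lower semicontinuous and whose values are subcontinua of `X` has a fixed
point `x ∈ F x`. Then `X` is hereditarily unicoherent: the intersection of any two subcontinua is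
connected (or empty). -/
theorem result (X : Type u) [MetricSpace X] [CompactSpace X]
    (harc : ∀ x y : X, x ≠ y → ∃ γ : Path x y, Function.Injective γ)
    (hfix : ∀ F : X → Set X, (∀ x, IsClosed (F x) ∧ IsConnected (F x)) →
      (∀ A : Set X, IsClosed A → IsClosed {x | (F x ∩ A).Nonempty}) →
      (∀ U : Set X, IsOpen U → IsOpen {x | (F x ∩ U).Nonempty}) →
      ∃ x, x ∈ F x) :
    ∀ A B : Set X, IsClosed A → IsConnected A → IsClosed B → IsConnected B →
      IsPreconnected (A ∩ B) := by
  intro A B hAc hAp hBc hBp
  -- it suffices to find a continuum `K` and an arc that meets `K` exactly in its endpoints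
  have key : ∀ (K : Set X), IsClosed K → IsPreconnected K → ∀ (p q : X) (γ : Path p q),
      Function.Injective γ → p ∈ K → q ∈ K → ∀ u, γ u ∉ K → False := by
    intro K hKc hKp p q γ hγ hp hq u hu
    obtain ⟨a, b, α, hα, ha, hb, hK⟩ := Pool.Agent.Ward.exists_subarc K hKc γ hγ hp hq u hu
    obtain ⟨F, hF, hFp, hF'⟩ := exists_fixedPointFree' K hKc hKp α hα ha hb hK
    obtain ⟨x, hx⟩ := hfix (fun x => (F x : Set X))
      (fun x => ⟨(F x).isCompact.isClosed, (F x).nonempty, hFp x⟩)
      (fun A hA => (NonemptyCompacts.isClosed_inter_nonempty_of_isClosed hA).preimage hF)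
      (fun U hU => (NonemptyCompacts.isOpen_inter_nonempty_of_isOpen hU).preimage hF)
    exact hF' x hx
  apply isPreconnected_of_forall_pair
  intro p hp q hq
  by_cases hpq : p = q
  · subst hpq
    exact ⟨{p}, by simpa using hp, by simp, by simp, isPreconnected_singleton⟩
  obtain ⟨γ, hγ⟩ := harc p q hpq
  refine ⟨Set.range γ, ?_, ⟨0, γ.source⟩, ⟨1, γ.target⟩, isPreconnected_range γ.continuous⟩
  rintro _ ⟨u, rfl⟩
  constructor
  · by_contra hu
    exact key A hAc hAp.isPreconnected p q γ hγ hp.1 hq.1 u hu
  · by_contra hu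
    exact key B hBc hBp.isPreconnected p q γ hγ hp.2 hq.2 u hu

end Pool.Agent.Results.MP_65cb57_gt.ContinuumValuedMaps
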